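import Mathlib
import Pool.Agent.H18.Defs
import Pool.Agent.H18.P2Def
import Pool.Agent.H18.P2Str
import Pool.Agent.H18.PerfP
import Pool.Agent.H18.EndF
import Pool.Agent.H18.KDim

/-! MP_e1e71f_ag: two simple-like objects generate the perfect complexes on the projective
plane. -/

open CategoryTheory AlgebraicGeometry

universe u

/-- For every field `k`, the projective plane over `k`, which is proper over `k` of dimension
two, carries two perfect complexes which are simple-like and whose thick closure contains all
perfect complexes. -/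
theorem Pool.Agent.Results.MP_e1e71f_ag.P2TwoSimpleLike.result (k : Type u) [Field k] :
    IsProper (H18.str k) ∧ topologicalKrullDim (H18.PP k) = 2 ∧
      ∃ F : Fin 2 → DerivedCategory (H18.PP k).Modules,
        (∀ i, H18.IsPerfect (F i) ∧ H18.SimpleLike (H18.str k) (F i)) ∧
          ∀ K : DerivedCategory (H18.PP k).Modules, H18.IsPerfect K → H18.ThickClosure F K := by
  refine ⟨inferInstance, (H18.planeP2 k).krullDim,
    ![(DerivedCategory.singleFunctor (H18.PP k).Modules 0).obj ((H18.planeP2 k).T0.R 3),
      (DerivedCategory.singleFunctor (H18.PP k).Modules 0).obj (H18.PlaneK.F₂ (H18.planeP2 k))],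
    ?_, ?_⟩
  · intro i
    have hi : i = 0 ∨ i = 1 := by omega
    rcases hi with rfl | rfl
    · exact ⟨(H18.planeP2 k).isPerfect_L 3, H18.PlaneK.simpleLike_L (H18.structure_str k) 3⟩
    · exact ⟨(H18.planeP2 k).isPerfect_F₂, H18.PlaneK.simpleLike_F (H18.structure_str k)⟩
  · intro K hK T hT hF
    exact (H18.planeP2 k).generate' hT (hF 0) (hF 1) K hK
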